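import Pool.Agent.H.MP_6cdbe4_gt.Defs

set_option autoImplicit false

namespace Pool.Agent.H.MP_6cdbe4_gt

variable {A B C : UMet}

/-- one-sided closeness of weights -/
def Rel (r : ℝ) (μ ν : J A) : Prop := ∀ y, ∃ y', A.d y y' < r ∧ μ.1 y ≤ ν.1 y'

theorem mem_iff {r : ℝ} (hr : 0 < r) {μ ν : J A} :
    (∀ φ : A.X → ℝ, (∀ x y, A.d x y < r → φ y = φ x) → ev μ φ = ev ν φ) ↔
      Rel r μ ν ∧ Rel r ν μ := by
  have k : ∀ μ ν : J A, (∀ φ : A.X → ℝ, (∀ x y, A.d x y < r → φ y = φ x) → ev μ φ = ev ν φ) →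
      Rel r μ ν := fun μ ν h y => by
    classical
    by_contra hc
    push Not at hc
    have h1 : ({y' | A.d y y' < r}).Nonempty := ⟨y, by simpa [(A.eq0 y y).mpr rfl]⟩
    obtain ⟨_, ⟨z, hz, rfl⟩, h2⟩ := Set.exists_max_image (ν.1 '' {y' | A.d y y' < r}) id
      (((ν.2.1.image ν.1).insert ⊥).subset (by
        rintro _ ⟨x, -, rfl⟩; by_cases e : ν.1 x = ⊥; exacts [Or.inl e, Or.inr ⟨x, e, rfl⟩]))
      (h1.image _)
    obtain ⟨a, a1, a2⟩ := EReal.lt_iff_exists_real_btwn.mp (hc z hz)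
    obtain ⟨b, b1, b2⟩ := EReal.lt_iff_exists_real_btwn.mp a2
    have h3 := h (fun x => if A.d y x < r then b else a) fun x x' e => by
      have : A.d y x' < r ↔ A.d y x < r := ⟨fun h => (A.ultra _ _ x').trans_lt
        (max_lt h (A.symm _ _ ▸ e)), fun h => (A.ultra _ _ x).trans_lt (max_lt h e)⟩
      simp only [this]
    refine b1.not_ge (le_trans (le_iSup_of_le y ?_) (h3.le.trans (iSup_le fun x => ?_)))
    · simp [(A.eq0 y y).mpr rfl, hr, b2.le]
    · by_cases e : A.d y x < r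
      · exact (min_le_left _ _).trans ((h2 _ ⟨x, e, rfl⟩).trans a1.le)
      · simp [e]
  have k' : ∀ μ ν : J A, Rel r μ ν → ∀ φ : A.X → ℝ, (∀ x y, A.d x y < r → φ y = φ x) →
      ev μ φ ≤ ev ν φ := fun μ ν h φ hφ => iSup_le fun y => by
    obtain ⟨y', h1, h2⟩ := h y
    exact le_iSup_of_le y' (by rw [hφ _ _ h1]; gcongr)
  exact ⟨fun h => ⟨k _ _ h, k _ _ fun φ hφ => (h φ hφ).symm⟩,
    fun h φ hφ => (k' _ _ h.1 φ hφ).antisymm (k' _ _ h.2 φ hφ)⟩

theorem dJ_le {s : ℝ} (hs : 0 ≤ s) {μ ν : J A} (h : ∀ r, s < r → Rel r μ ν ∧ Rel r ν μ) :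
    dJ μ ν ≤ s :=
  le_of_forall_gt_imp_ge_of_dense fun r hr => csInf_le ⟨0, fun _ h => h.1.le⟩
    ⟨hs.trans_lt hr, (mem_iff (hs.trans_lt hr)).mpr (h r hr)⟩

theorem Rel.mono {r s : ℝ} {μ ν : J A} (h : Rel r μ ν) (e : r ≤ s) : Rel s μ ν := fun y =>
  (h y).imp fun _ h => ⟨h.1.trans_le e, h.2⟩

theorem rel_of {r : ℝ} {μ ν : J A} (h : dJ μ ν < r) : Rel r μ ν := by
  have k : ∀ μ ν : J A, ∃ s, 0 < s ∧ Rel s μ ν := fun μ ν => by
    obtain ⟨z, hz⟩ := ν.2.2
    obtain ⟨s, hs⟩ := (μ.2.1.image (A.d · z)).bddAbove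
    refine ⟨max s 0 + 1, by positivity, fun y => ?_⟩
    by_cases e : μ.1 y = ⊥
    · exact ⟨y, by rw [(A.eq0 y y).mpr rfl]; positivity, by simp [e]⟩
    · exact ⟨z, by linarith [hs ⟨y, e, rfl⟩, le_max_left s 0], by simp [hz]⟩
  obtain ⟨s, s1, s2⟩ := k μ ν
  obtain ⟨t, t1, t2⟩ := k ν μ
  obtain ⟨r', h1, h2⟩ := exists_lt_of_csInf_lt (Exists.intro (s + t) (And.intro (by positivity)
    ((mem_iff (by positivity)).mpr ⟨s2.mono (by linarith), t2.mono (by linarith)⟩))) h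
  exact ((mem_iff h1.1).mp h1.2).1.mono h2.le

theorem KHom.rel (f : KHom A B) {x y : A.X} {r : ℝ} (h : A.d x y < r) : Rel r (f.1 x) (f.1 y) :=
  rel_of ((f.2 x y).trans_lt h)

/-- build a Kleisli morphism -/
def mkK (f : A.X → J B) (h : ∀ x y r, A.d x y < r → Rel r (f x) (f y)) : KHom A B :=
  ⟨f, fun x y => dJ_le (A.nonneg _ _) fun r hr => ⟨h _ _ _ hr, h _ _ _ (A.symm _ _ ▸ hr)⟩⟩

/-- the tensor product pushed to the symmetric power -/
noncomputable def ten {n : ℕ} (μ : Fin n → J B) : J (SP n B) :=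
  ⟨fun q => ⨆ y, ⨆ _ : Quotient.mk (orb n B.X) y = q, ⨅ i, (μ i).1 (y i),
    ((Set.Finite.pi' fun i => (μ i).2.1).image (Quotient.mk (orb n B.X))).subset fun q hq => by
      simp only [Set.mem_setOf_eq, ne_eq, iSup_eq_bot, not_forall] at hq
      obtain ⟨y, h1, h2⟩ := hq
      exact ⟨y, fun i e => h2 (le_bot_iff.mp ((iInf_le _ i).trans e.le)), h1⟩,
    by
      choose y hy using fun i => (μ i).2.2
      exact ⟨⟦y⟧, top_le_iff.mp (le_iSup₂_of_le y rfl (by simp [hy]))⟩⟩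

theorem snd {n : ℕ} {X : Type} (y : Fin n → X) (σ : Equiv.Perm (Fin n)) :
    Quotient.mk (orb n X) (y ∘ σ) = Quotient.mk _ y :=
  Quotient.sound ((orb n X).symm ⟨σ, rfl⟩)

theorem ten_perm {n : ℕ} (μ : Fin n → J B) (σ : Equiv.Perm (Fin n)) : ten (μ ∘ σ) = ten μ := by
  have k : ∀ (μ : Fin n → J B) (σ : Equiv.Perm (Fin n)) q, (ten μ).1 q ≤ (ten (μ ∘ σ)).1 q :=
    fun μ σ q => iSup₂_le fun y hy => le_iSup₂_of_le (y ∘ σ)
      ((snd _ σ).trans hy) (le_iInf fun i => iInf_le _ (σ i))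
  refine Subtype.ext (funext fun q => le_antisymm ?_ (k _ _ _))
  simpa [Function.comp_def] using k (μ ∘ σ) σ⁻¹ q

theorem ten_att {n : ℕ} (μ : Fin n → J B) (q) :
    ∃ y, Quotient.mk (orb n B.X) y = q ∧ (ten μ).1 q = ⨅ i, (μ i).1 (y i) := by
  obtain ⟨y, rfl⟩ := q.exists_rep
  obtain ⟨σ, hσ⟩ := Finite.exists_max fun σ : Equiv.Perm (Fin n) => ⨅ i, (μ i).1 (y (σ i))
  refine ⟨y ∘ σ, (snd _ σ), le_antisymm (iSup₂_le fun z hz => ?_)
    (le_iSup₂_of_le (y ∘ σ) (snd _ σ) le_rfl)⟩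
  obtain ⟨τ, rfl⟩ := Quotient.exact hz.symm
  exact hσ τ

/-- the standard extension -/
noncomputable def E1 (n : ℕ) : Extension n where
  map f := mkK (Quotient.lift (fun x => ten (f.1 ∘ x)) (by
    rintro x _ ⟨σ, rfl⟩; exact (ten_perm (f.1 ∘ x) σ).symm)) (by
      rintro ⟨x⟩ ⟨x'⟩ r h q
      obtain ⟨h0, σ, h1⟩ := dT_lt.mp h
      obtain ⟨y, rfl, h2⟩ := ten_att (f.1 ∘ x) q
      choose y' h3 h4 using fun i => f.rel (h1 i) (y i)
      refine ⟨⟦y'⟧, dT_lt.mpr ⟨h0, 1, h3⟩, h2.le.trans ?_⟩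
      change _ ≤ (ten (f.1 ∘ x')).1 _
      rw [← ten_perm _ σ]
      exact le_iSup₂_of_le y' rfl (iInf_mono h4))
  map_comp f g h e := by
    rintro ⟨x⟩ z
    refine le_antisymm (iSup₂_le fun z' hz => ?_) (iSup_le fun q => ?_)
    · simp only [Function.comp, e (x _), iInf_iSup_eq]
      refine iSup_le fun y => le_iSup_of_le ⟦y⟧ (le_min (le_iSup₂_of_le y rfl ?_)
        (le_iSup₂_of_le z' hz ?_))
      exacts [iInf_mono fun i => min_le_left _ _, iInf_mono fun i => min_le_right _ _]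
    · obtain ⟨y, rfl, h2⟩ := ten_att (f.1 ∘ x) q
      obtain ⟨z', rfl, h3⟩ := ten_att (g.1 ∘ y) z
      refine le_iSup₂_of_le z' rfl (le_iInf fun i => ?_)
      rw [Function.comp, e]
      exact le_iSup_of_le (y i) (min_le_min (h2.le.trans (iInf_le _ i)) (h3.le.trans (iInf_le _ i)))
  map_phi u f e := by
    rintro ⟨x⟩ q
    split_ifs with h
    · exact top_le_iff.mp (le_iSup₂_of_le (u ∘ x) h.symm (by simp [e (x _)]))
    · refine le_bot_iff.mp (iSup₂_le fun y hy => ?_)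
      obtain ⟨i, hi⟩ := Function.ne_iff.mp (show y ≠ u ∘ x by rintro rfl; exact h hy.symm)
      exact (iInf_le _ i).trans (by simp [e (x _), show y i ≠ u (x i) from hi])

open Classical in
/-- replace every weight other than `-∞` by `+∞` -/
noncomputable def tw (f : KHom A B) : KHom A B :=
  mkK (fun x => ⟨fun y => if (f.1 x).1 y = ⊥ then ⊥ else ⊤, (f.1 x).2.1.subset fun y => by simp,
    (f.1 x).2.2.imp fun y h => by simp [h]⟩) fun x x' r h y => (f.rel h y).imp fun y' h =>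
      ⟨h.1, by
        dsimp only
        split_ifs with a b
        exacts [le_rfl, bot_le, (‹¬ _› (le_bot_iff.mp (h.2.trans_eq ‹_›))).elim, le_rfl]⟩

/-- the twisted extension -/
noncomputable def E2 (n : ℕ) : Extension n where
  map f := (E1 n).map (tw f)
  map_comp f g h e := (E1 n).map_comp _ _ _ fun x z => by
    simp only [tw, mkK, e x z]
    split_ifs with a
    · refine (iSup_eq_bot.mpr fun y => ?_).symm
      have := iSup_eq_bot.mp a y
      rw [min_eq_bot] at this ⊢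
      simpa using this
    · obtain ⟨y, hy⟩ := not_forall.mp (mt iSup_eq_bot.mpr a)
      rw [min_eq_bot, not_or] at hy
      exact (top_le_iff.mp (le_iSup_of_le y (by simp [hy]))).symm
  map_phi u f e := (E1 n).map_phi _ _ fun x y => by
    simp only [tw, mkK, e x y]
    split_ifs <;> simp_all

/-- two points -/
noncomputable def Two : UMet where
  X := Bool
  d x y := if x = y then 0 else 1
  eq0 := by simp
  symm := by simp [eq_comm]
  ultra := by simp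

theorem ne (n : ℕ) (hn : 1 ≤ n) : E1 n ≠ E2 n := fun h => by
  let μ : J Two := ⟨fun y : Bool => if y then 0 else ⊤, Set.toFinite (α := Bool) _, false, rfl⟩
  let f : KHom Two Two := mkK (fun _ => μ) fun x _ r h y =>
    ⟨y, by simpa [Two] using (Two.nonneg _ _).trans_lt h, le_rfl⟩
  have h1 := congrArg (fun E : Extension n => ((E.map f).1 (Quotient.mk _ fun _ => true)).1
    (Quotient.mk _ fun _ => true)) h
  have h2 : (⊤ : EReal) ≤ 0 := by
    refine le_trans ?_ (h1.ge.trans (iSup₂_le fun y hy => ?_))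
    · exact le_iSup₂_of_le (fun _ => true) rfl (by simp [tw, mkK, f, μ])
    obtain ⟨σ, rfl⟩ := Quotient.exact hy.symm
    exact (iInf_le _ ⟨0, hn⟩).trans (by simp [f, mkK, μ])
  simp at h2

end Pool.Agent.H.MP_6cdbe4_gt
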