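import Mathlib

set_option autoImplicit false

namespace Pool.Agent.H.MP_6cdbe4_gt

/-- Ultrametric spaces. -/
structure UMet where
  (X : Type)
  (d : X → X → ℝ)
  (eq0 : ∀ x y, d x y = 0 ↔ x = y)
  (symm : ∀ x y, d x y = d y x)
  (ultra : ∀ x y z, d x y ≤ max (d x z) (d z y))

/-- Max-min measures of finite support `⋁ α_x ∧ δ_x`, given by their weights `α_x`
(`α_x = -∞` off a finite set, some `α_x = +∞`). -/
def J (A : UMet) : Type := {α : A.X → EReal // {x | α x ≠ ⊥}.Finite ∧ ∃ x, α x = ⊤}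

/-- The functional `μ(φ) = max_x min(α_x, φ x)`. -/
noncomputable def ev {A : UMet} (μ : J A) (φ : A.X → ℝ) : EReal := ⨆ x, min (μ.1 x) (φ x)

/-- The ultrametric on `J A`: the infimum of the `r > 0` such that `μ` and `ν` agree on all real
functions that are constant on every open `r`-ball. -/
noncomputable def dJ {A : UMet} (μ ν : J A) : ℝ :=
  sInf {r | 0 < r ∧ ∀ φ : A.X → ℝ, (∀ x y, A.d x y < r → φ y = φ x) → ev μ φ = ev ν φ}

/-- Kleisli morphisms: nonexpanding maps `A → J B`. -/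
def KHom (A B : UMet) : Type := {f : A.X → J B // ∀ x y, dJ (f x) (f y) ≤ A.d x y}

/-- `h = g * f` in the Kleisli category. -/
def IsComp {A B C : UMet} (f : KHom A B) (g : KHom B C) (h : KHom A C) : Prop :=
  ∀ x z, (h.1 x).1 z = ⨆ y, min ((f.1 x).1 y) ((g.1 y).1 z)

open Classical in
/-- `f = Φ u = δ ∘ u`. -/
def IsPhi {A B : UMet} (u : A.X → B.X) (f : KHom A B) : Prop :=
  ∀ x y, (f.1 x).1 y = if y = u x then ⊤ else ⊥

theorem UMet.nonneg (A : UMet) (x y : A.X) : 0 ≤ A.d x y := by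
  simpa [(A.eq0 x x).mpr rfl, A.symm y x] using A.ultra x x y

/-- Orbits of `S_n` on `X^n`. -/
def orb (n : ℕ) (X : Type) : Setoid (Fin n → X) where
  r x y := ∃ σ : Equiv.Perm (Fin n), y = x ∘ σ
  iseqv := ⟨fun _ => ⟨1, rfl⟩, fun ⟨σ, h⟩ => ⟨σ⁻¹, by ext; simp [h]⟩,
    fun ⟨σ, h⟩ ⟨τ, h'⟩ => ⟨σ * τ, by rw [h', h]; rfl⟩⟩

/-- `min_σ max_i d(x_i, y_{σ i})` -/
noncomputable def dT {n : ℕ} {A : UMet} (x y : Fin n → A.X) : ℝ :=
  ⨅ σ : Equiv.Perm (Fin n), ⨆ i, A.d (x i) (y (σ i))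

theorem dT_lt {n : ℕ} {A : UMet} {x y : Fin n → A.X} {r : ℝ} :
    dT x y < r ↔ 0 < r ∧ ∃ σ : Equiv.Perm (Fin n), ∀ i, A.d (x i) (y (σ i)) < r := by
  rw [dT, ciInf_lt_iff (Finite.bddBelow_range _)]
  refine ⟨fun ⟨σ, h⟩ => ⟨(Real.iSup_nonneg fun i => A.nonneg _ _).trans_lt h, σ, fun i =>
    (le_ciSup (f := fun i => A.d (x i) (y (σ i))) (Finite.bddAbove_range _) i).trans_lt h⟩,
    fun ⟨h0, σ, h⟩ => ⟨σ, ?_⟩⟩
  rcases isEmpty_or_nonempty (Fin n) with _ | _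
  · simpa
  · obtain ⟨i, hi⟩ := exists_eq_ciSup_of_finite (f := fun i => A.d (x i) (y (σ i)))
    exact hi ▸ h i

/-- The symmetric power `SP^n`. -/
noncomputable def SP (n : ℕ) (A : UMet) : UMet where
  X := Quotient (orb n A.X)
  d := Quotient.lift₂ dT (by
    rintro x y _ _ ⟨σ, rfl⟩ ⟨τ, rfl⟩
    refine eq_of_forall_gt_iff fun r => ?_
    simp only [dT_lt]
    exact and_congr_right fun _ => ⟨fun ⟨ρ, h⟩ => ⟨τ⁻¹ * ρ * σ, fun i => by simpa using h (σ i)⟩,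
      fun ⟨ρ, h⟩ => ⟨τ * ρ * σ⁻¹, fun i => by simpa using h (σ⁻¹ i)⟩⟩)
  eq0 := by
    rintro ⟨x⟩ ⟨y⟩
    refine ⟨fun h => Quotient.sound ?_, fun h => ?_⟩
    · obtain ⟨σ, hσ⟩ := exists_eq_ciInf_of_finite
        (f := fun σ : Equiv.Perm (Fin n) => ⨆ i, A.d (x i) (y (σ i)))
      refine (orb n A.X).symm ⟨σ, funext fun i => (A.eq0 _ _).mp (le_antisymm ?_ (A.nonneg _ _))⟩
      exact (le_ciSup (f := fun i => A.d (x i) (y (σ i))) (Finite.bddAbove_range _) i).trans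
        (hσ.trans h).le
    · rw [h]
      refine eq_of_forall_gt_iff fun r => dT_lt.trans ⟨fun h => h.1, fun h => ⟨h, 1, fun i => ?_⟩⟩
      simpa [(A.eq0 _ _).mpr rfl]
  symm := by
    rintro ⟨x⟩ ⟨y⟩
    refine eq_of_forall_gt_iff fun r => dT_lt.trans (Iff.trans ?_ dT_lt.symm)
    exact and_congr_right fun _ => ⟨fun ⟨ρ, h⟩ => ⟨ρ⁻¹, fun i => by simpa [A.symm] using h (ρ⁻¹ i)⟩,
      fun ⟨ρ, h⟩ => ⟨ρ⁻¹, fun i => by simpa [A.symm] using h (ρ⁻¹ i)⟩⟩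
  ultra := by
    rintro ⟨x⟩ ⟨y⟩ ⟨z⟩
    refine le_of_forall_gt_imp_ge_of_dense fun r h => (dT_lt.mpr ?_).le
    obtain ⟨h0, σ, h1⟩ := dT_lt.mp ((le_max_left _ _).trans_lt h)
    obtain ⟨-, τ, h2⟩ := dT_lt.mp ((le_max_right _ _).trans_lt h)
    exact ⟨h0, τ * σ, fun i => (A.ultra _ _ (z (σ i))).trans_lt (max_lt (h1 i) (h2 (σ i)))⟩

/-- `SP^n(u)[x_i] = [u x_i]` -/
def SPmap (n : ℕ) {A B : UMet} (u : A.X → B.X) : (SP n A).X → (SP n B).X :=
  Quotient.map (u ∘ ·) fun _ _ ⟨σ, h⟩ => ⟨σ, by rw [h]; rfl⟩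

/-- Extensions of `SP^n` onto the Kleisli category: an action on Kleisli morphisms that preserves
composition and sends `Φ u` to `Φ (SP^n u)` (in particular it preserves identities). -/
structure Extension (n : ℕ) where
  map : ∀ {A B : UMet}, KHom A B → KHom (SP n A) (SP n B)
  map_comp : ∀ {A B C : UMet} (f : KHom A B) (g : KHom B C) (h : KHom A C),
    IsComp f g h → IsComp (map f) (map g) (map h)
  map_phi : ∀ {A B : UMet} (u : A.X → B.X) (f : KHom A B), IsPhi u f → IsPhi (SPmap n u) (map f)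

end Pool.Agent.H.MP_6cdbe4_gt
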